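import Mathlib
import Pool.Agent.Lib.MP_ccf8bc_lc.Fubini

/-!
Above a measurable cardinal `κ > LS(K)` amalgamation transfers downwards; equivalently a failure
of amalgamation in some `l ≥ κ` persists in every larger cardinal.
-/

set_option maxHeartbeats 400000

namespace Pool.Agent.Results.MP_ccf8bc_lc.Measurable

open FirstOrder FirstOrder.Language Cardinal Filter Pool.Agent.Lib.MP_ccf8bc_lc

universe u

theorem exists_cut {L : FirstOrder.Language.{u, u}} (K : AEC L) {N : Type u} [L.Structure N]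
    (hN : K.Mem N) (A : Set N) {c : Cardinal.{u}} (h1 : K.LS ≤ c) (h2 : #A ≤ c) (h3 : c ≤ #N) :
    ∃ S : L.Substructure N, A ⊆ S ∧ K.Str S.subtype ∧ #S = c := by
  obtain ⟨hinf, -, hls⟩ := K.LS_spec
  obtain ⟨B, hB⟩ := Cardinal.le_mk_iff_exists_set.1 h3
  obtain ⟨S, e1, e2, e3⟩ := hls N hN (A ∪ B)
  have hc := hinf.trans h1
  refine ⟨S, Set.subset_union_left.trans e1, e2, le_antisymm (e3.trans ?_) ?_⟩
  · exact Cardinal.add_le_of_le hc
      ((Cardinal.mk_union_le _ _).trans (Cardinal.add_le_of_le hc h2 hB.le)) h1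
  · exact hB ▸ Cardinal.mk_le_mk_of_subset (Set.subset_union_right.trans e1)

theorem result {L : FirstOrder.Language.{u, u}} (K : AEC L) (κ l m : Cardinal.{u})
    (hκ : Measurable' κ) (hLS : K.LS < κ) (hl : κ ≤ l) (hm : l ≤ m) (h : K.AP m) : K.AP l := by
  intro M₀ M₁ M₂ _ _ _ g₁ g₂ s₁ s₂ c₀ c₁ c₂
  obtain ⟨-, α, U, hα, hnp, hU⟩ := hκ
  have hinf := K.LS_spec.1
  have hl' : K.LS ≤ l := hLS.le.trans hl
  have hm' : K.LS ≤ m := hl'.trans hm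
  obtain ⟨V, hV, hd⟩ := exists_limit_ultrafilter (J := m.ord.ToType) U (θ := K.LS) hnp
    (fun Γ hΓ B hB => by
      have := hU (Set.range fun γ => {y | B γ y})
        ((Cardinal.mk_range_le.trans hΓ).trans_lt hLS) (by rintro _ ⟨γ, rfl⟩; exact hB γ)
      rw [Set.sInter_range] at this
      exact mem_of_superset this fun y hy γ => Set.mem_iInter.1 hy γ)
  obtain ⟨e⟩ : Nonempty (α ↪ M₀) := (Cardinal.le_def _ _).1 (by rw [hα, c₀]; exact hl)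
  have hbig : m ≤ #(Lim V M₀ : L.Substructure _) := by simpa using le_card_Lim (L := L) e hd
  obtain ⟨a₁, b₁⟩ := lim_str hV s₁
  obtain ⟨a₂, b₂⟩ := lim_str hV s₂
  set j₀ := (diag V : M₀ ↪[L] UP V M₀).codRestrict (Lim V M₀) diag_mem
  set j₁ := (diag V : M₁ ↪[L] UP V M₁).codRestrict (Lim V M₁) diag_mem
  set j₂ := (diag V : M₂ ↪[L] UP V M₂).codRestrict (Lim V M₂) diag_mem
  set G₁ := ((UPmap V g₁).comp (Lim V M₀).subtype).codRestrict (Lim V M₁) (UPmap_mem g₁)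
  set G₂ := ((UPmap V g₂).comp (Lim V M₀).subtype).codRestrict (Lim V M₂) (UPmap_mem g₂)
  have q₁ : ∀ x, G₁ (j₀ x) = j₁ (g₁ x) := fun x => rfl
  have q₂ : ∀ x, G₂ (j₀ x) = j₂ (g₂ x) := fun x => rfl
  clear_value j₀ j₁ j₂ G₁ G₂
  obtain ⟨S₀, p₀, r₀, t₀⟩ := exists_cut K (K.mem_dom _ b₁) (Set.range j₀) hm'
    (Cardinal.mk_range_le.trans (c₀ ▸ hm)) hbig
  obtain ⟨S₁, p₁, r₁, t₁⟩ := exists_cut K (K.mem_cod _ b₁)
    (Set.range (G₁.comp S₀.subtype) ∪ Set.range j₁) hm'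
    ((Cardinal.mk_union_le _ _).trans (Cardinal.add_le_of_le (hinf.trans hm')
      (Cardinal.mk_range_le.trans t₀.le) (Cardinal.mk_range_le.trans (c₁ ▸ hm))))
    (hbig.trans (Cardinal.mk_le_of_injective G₁.injective))
  obtain ⟨S₂, p₂, r₂, t₂⟩ := exists_cut K (K.mem_cod _ b₂)
    (Set.range (G₂.comp S₀.subtype) ∪ Set.range j₂) hm'
    ((Cardinal.mk_union_le _ _).trans (Cardinal.add_le_of_le (hinf.trans hm')
      (Cardinal.mk_range_le.trans t₀.le) (Cardinal.mk_range_le.trans (c₂ ▸ hm))))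
    (hbig.trans (Cardinal.mk_le_of_injective G₂.injective))
  obtain ⟨N, _, f₁, f₂, hN, u₁, u₂, hf⟩ := h S₀ S₁ S₂
    ((G₁.comp S₀.subtype).codRestrict S₁ fun x => p₁ (Or.inl ⟨x, rfl⟩))
    ((G₂.comp S₀.subtype).codRestrict S₂ fun x => p₂ (Or.inl ⟨x, rfl⟩))
    (K.str_codRestrict (K.str_comp _ _ r₀ b₁) r₁ _)
    (K.str_codRestrict (K.str_comp _ _ r₀ b₂) r₂ _) t₀ t₁ t₂
  set k₁ := f₁.comp (j₁.codRestrict S₁ fun x => p₁ (Or.inr ⟨x, rfl⟩)) with hk₁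
  set k₂ := f₂.comp (j₂.codRestrict S₂ fun x => p₂ (Or.inr ⟨x, rfl⟩)) with hk₂
  have v₁ : K.Str k₁ := K.str_comp _ _ (K.str_codRestrict a₁ r₁ _) u₁
  have v₂ : K.Str k₂ := K.str_comp _ _ (K.str_codRestrict a₂ r₂ _) u₂
  have hk : ∀ x, k₁ (g₁ x) = k₂ (g₂ x) := fun x => by
    have e₀ := DFunLike.congr_fun hf ⟨j₀ x, p₀ ⟨x, rfl⟩⟩
    refine Eq.trans ?_ (e₀.trans ?_)
    · exact congrArg f₁ (Subtype.ext (q₁ x).symm)
    · exact congrArg f₂ (Subtype.ext (q₂ x))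
  obtain ⟨S, p, r, t⟩ := exists_cut K (K.mem_cod _ u₁) (Set.range k₁ ∪ Set.range k₂) hl'
    ((Cardinal.mk_union_le _ _).trans (Cardinal.add_le_of_le (hinf.trans hl')
      (Cardinal.mk_range_le.trans c₁.le) (Cardinal.mk_range_le.trans c₂.le))) (hN ▸ hm)
  refine ⟨S, inferInstance, k₁.codRestrict S fun x => p (Or.inl ⟨x, rfl⟩),
    k₂.codRestrict S fun x => p (Or.inr ⟨x, rfl⟩), t, K.str_codRestrict v₁ r _,
    K.str_codRestrict v₂ r _, ?_⟩
  ext x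
  exact hk x

end Pool.Agent.Results.MP_ccf8bc_lc.Measurable
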