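import Mathlib
import Pool.Agent.Lib.MP_ccf8bc_lc.BC.Main
import Pool.Agent.Lib.MP_ccf8bc_lc.Example
import Pool.Agent.Results.MP_ccf8bc_lc.Measurable

/-!
The realisable pairs of classes of cardinals.
-/

namespace Pool.Agent.Results.MP_ccf8bc_lc.AllPairs

open Cardinal FirstOrder Pool.Agent.Lib.MP_ccf8bc_lc Pool.Agent.Lib.MP_ccf8bc_lc.BC

universe u

theorem result (X Y : Set Cardinal.{u}) (hXY : Disjoint X Y) :
    (∃ (L : FirstOrder.Language.{u, u}) (K : AEC L), (∀ n ∈ X, K.AP n) ∧ ∀ m ∈ Y, ¬ K.AP m) ↔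
      (∀ m ∈ Y, ℵ₀ ≤ m) ∧ (BddAbove X ∨ BddAbove Y ∨
        (BddAbove {κ : Cardinal.{u} | Measurable' κ} ∧ BddAbove {κ ∈ Y | WeaklyCompact κ} ∧
          (∃ F, Sigma12 F ∧ Y ⊆ F ∧ Disjoint X F) ∧
          ∃ (τ τ' : FirstOrder.Language.{u, u}) (φ : FirstOrder.Language.LHom τ τ') (C₀ : Univ τ)
            (C₁ : Univ τ'), (∀ n ∈ X, ℵ₀ ≤ n → EmbSp φ C₀ C₁ n) ∧
              ∀ m ∈ Y, Exotic m → ¬ EmbSp φ C₀ C₁ m)) := by
  constructor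
  · rintro ⟨L, K, h1, h2⟩
    have h0 : ∀ m ∈ Y, ℵ₀ ≤ m := fun m hm => not_lt.1 fun hlt => h2 m hm (K.AP_of_finite hlt)
    refine ⟨h0, ?_⟩
    by_cases hX : BddAbove X
    · exact Or.inl hX
    by_cases hY' : BddAbove Y
    · exact Or.inr (Or.inl hY')
    rw [not_bddAbove_iff] at hX hY'
    obtain ⟨τ, τ', φ, C₀, C₁, hK⟩ := rep p1_thm p2_thm p3_thm K
    refine Or.inr (Or.inr ⟨⟨K.LS, fun κ hκ => not_lt.1 fun hlt => ?_⟩,
      ⟨max τ.card τ'.card, fun κ hκ => not_lt.1 fun hlt => ?_⟩,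
      ⟨_, sigma_of_emb φ C₀ C₁, fun m hm => ⟨h0 m hm, fun h => h2 m hm ((hK m (h0 m hm)).2 h)⟩,
      Set.disjoint_left.2 fun n hn h => h.2 ((hK n h.1).1 (h1 n hn))⟩,
      τ, τ', φ, C₀, C₁, fun n hn h => (hK n h).1 (h1 n hn),
      fun m hm _ h => h2 m hm ((hK m (h0 m hm)).2 h)⟩)
    · obtain ⟨m, hm, h5⟩ := hY' κ
      obtain ⟨n, hn, h6⟩ := hX m
      exact h2 m hm (Measurable.result K κ m n hκ hlt h5.le h6.le (h1 n hn))
    · obtain ⟨n, hn, h6⟩ := hX κ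
      have h7 := hκ.2.1.le
      exact h2 κ hκ.1 ((hK κ h7).2 (wc_transfer φ C₀ C₁ hκ.2 ((le_max_left _ _).trans_lt hlt)
        ((le_max_right _ _).trans_lt hlt) h6.le ((hK n (h7.trans h6.le)).1 (h1 n hn))))
  · rintro ⟨h0, hX | hY' | ⟨⟨a, ha⟩, ⟨b, hb⟩, ⟨F, h1, h2, h3⟩, τ, τ', φ, C₀, C₁, h4, h5⟩⟩
    · exact realise X Y hXY (Or.inl hX) h0
    · exact realise X Y hXY (Or.inr hY') h0
    · refine realise_sigma X Y F h1 h2 h3 (max ℵ₀ (max a b)) (le_max_left _ _)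
        (fun κ hκ h => ?_) (fun m hm h h' => ?_) φ C₀ C₁ h4 h5
      · exact (((le_max_left _ _).trans (le_max_right _ _)).trans_lt hκ).not_ge (ha h)
      · exact (((le_max_right _ _).trans (le_max_right _ _)).trans_lt h).not_ge (hb ⟨hm, h'⟩)

end Pool.Agent.Results.MP_ccf8bc_lc.AllPairs
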