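import Mathlib
import Pool.Agent.Results.MP_ccf8bc_lc.Measurable
import Pool.Agent.Lib.MP_ccf8bc_lc.NM.Main

/-!
The tentative conjecture on the amalgamation spectrum holds exactly when there is a proper class
of measurable cardinals.
-/

namespace Pool.Agent.Results.MP_ccf8bc_lc.Equivalence

open Cardinal Pool.Agent.Lib.MP_ccf8bc_lc

universe u

theorem result :
    (∀ (L : FirstOrder.Language.{u, u}) (K : AEC L),
      BddAbove {c : Cardinal.{u} | K.AP c} ∨ BddAbove {c : Cardinal.{u} | ¬ K.AP c}) ↔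
    ∀ θ : Cardinal.{u}, ∃ κ, θ < κ ∧ Measurable' κ := by
  refine ⟨fun h θ => ?_, fun H L K => ?_⟩
  · by_contra hcon
    obtain ⟨L, K, -, h1, h2⟩ := NM.counterexample (max θ ℵ₀) (le_max_right _ _)
      fun κ hκ hm => hcon ⟨κ, (le_max_left _ _).trans_lt hκ, hm⟩
    rcases h L K with ⟨c, hc⟩ | ⟨c, hc⟩
    · obtain ⟨ν, h3, h4⟩ := NM.exists_strongLimit (max c (max θ ℵ₀))
      exact ((le_max_left _ _).trans_lt h3).not_ge (hc (h1 ν ((le_max_right _ _).trans_lt h3) h4))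
    · exact ((le_max_left c _).trans_lt ((Cardinal.cantor _).trans (Cardinal.cantor _))).not_ge
        (hc (h2 (max c (max θ ℵ₀)) (le_max_right _ _)))
  · obtain ⟨κ, h3, h4⟩ := H K.LS
    by_cases h : ∀ m, κ ≤ m → K.AP m
    · exact Or.inr ⟨κ, fun m hm => not_lt.1 fun hlt => hm (h m hlt.le)⟩
    · obtain ⟨m, h5, h6⟩ : ∃ m, κ ≤ m ∧ ¬ K.AP m := by simpa using h
      exact Or.inl ⟨m, fun n hn => not_lt.1 fun hlt =>
        h6 (Measurable.result K κ m n h4 h3 h5 hlt.le hn)⟩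

end Pool.Agent.Results.MP_ccf8bc_lc.Equivalence
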