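import Mathlib
import Pool.Agent.Results.MP_ccf8bc_lc.Measurable
import Pool.Agent.Lib.MP_ccf8bc_lc.Loc.Hanf

/-!
The Hanf number for amalgamation is at least the first measurable cardinal above the
Loewenheim-Skolem number.
-/

namespace Pool.Agent.Results.MP_ccf8bc_lc.Hanf

open Cardinal Pool.Agent.Lib.MP_ccf8bc_lc

universe u

theorem result (θ : Cardinal.{u}) (hθ : ℵ₀ ≤ θ) :
    ∃ (L : FirstOrder.Language.{u, u}) (K : AEC L), K.LS ≤ θ ∧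
      (∀ ν, θ < ν → ν.IsStrongLimit → K.AP ν) ∧
      (∀ l, θ ≤ l → (∀ κ, θ < κ → κ ≤ l → ¬ Measurable' κ) →
        ¬ K.AP (2 ^ (2 ^ l : Cardinal.{u}))) ∧
      ∀ κ, IsLeast {κ | θ < κ ∧ Measurable' κ} κ →
        (∀ l < κ, ∃ ν, l < ν ∧ ν < κ ∧ K.AP ν) ∧ (∀ l < κ, ∃ ν, l < ν ∧ ν < κ ∧ ¬ K.AP ν) ∧
        ∀ ν, κ ≤ ν → K.AP ν := by
  obtain ⟨L, K, h1, h2, h3⟩ := Loc.local_example θ hθ
  refine ⟨L, K, h1, h2, h3, fun κ hκ => ?_⟩
  have hi := BC.inacc_thm κ (Loc.wc_of_measurable hκ.1.2)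
  refine ⟨fun l hl => ?_, fun l hl => ?_, fun ν hν => ?_⟩
  · obtain ⟨ν, a, b, c⟩ := Loc.strongLimit_between hi (max_lt hl hκ.1.1)
    exact ⟨ν, (le_max_left _ _).trans_lt a, b, h2 ν ((le_max_right _ _).trans_lt a) c⟩
  · have hm := max_lt hl hκ.1.1
    exact ⟨_, (le_max_left l θ).trans_lt ((Cardinal.cantor _).trans (Cardinal.cantor _)),
      hi.isStrongPrelimit (hi.isStrongPrelimit hm), h3 _ (le_max_right l θ)
        fun k a b c => (b.trans_lt hm).not_ge (hκ.2 ⟨a, c⟩)⟩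
  · obtain ⟨m, a, b⟩ := NM.exists_strongLimit ν
    exact Measurable.result K κ ν m hκ.1.2 (h1.trans_lt hκ.1.1) hν a.le
      (h2 m (hκ.1.1.trans_le (hν.trans a.le)) b)

end Pool.Agent.Results.MP_ccf8bc_lc.Hanf
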